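import Mathlib

/-!
# Fourth powers that are palindromes and have a palindromic root

We prove: if `n > 1` and both `n` and `n ^ 4` are palindromes in base ten, then
`n = 10 ^ (i + 1) + 1` for some `i`.

Write `d` for the number of digits of `n` and `D` for the number of digits of `n ^ 4`, so that
`D = 4 * d - 3 + s` with `s ∈ {0, 1, 2, 3}`.

* If `s = 0`, comparing the base ten expansion of `n ^ 4` with the (palindromic) coefficient
  sequence of the fourth power of the digit polynomial shows that no carry occurs, and then the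
  middle coefficient forces `n = 10 ^ (d - 1) + 1`.
* If `s ∈ {1, 2, 3}`, the first `j` digits of `n` determine the last `j` digits of `n` and hence
  the last `j` digits of `n ^ 4`, so the first `j` digits of `n ^ 4`; these must be compatible
  with the first `j` digits of `n`. The tree of compatible digit strings is finite (its depth is
  less than `95`), and no member of it gives a solution.
-/

namespace Pool.Agent.Results.MP_4eb327_nt.PalindromicRoot

open Polynomial

/-! ### Digits of palindromes -/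

lemma pal_digit {m : ℕ} (h : (Nat.digits 10 m).Palindrome) :
    ∀ i < (Nat.digits 10 m).length,
      m / 10 ^ ((Nat.digits 10 m).length - 1 - i) % 10 = m / 10 ^ i % 10 := by
  intro i hi
  rw [← Nat.getD_digits m _ (by norm_num : 2 ≤ 10), ← Nat.getD_digits m i (by norm_num : 2 ≤ 10)]
  have h1 := List.getD_reverse (l := Nat.digits 10 m) i hi
  rw [h.reverse_eq] at h1
  exact (congrFun h1 0).symm

/-! ### The finite search -/

/-- Compatibility of the leading digits `P` of `n` with the leading digits `R` of `n ^ 4`. -/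
def chk (e P R : ℕ) : Bool :=
  Nat.blt (R * 10 ^ e) ((P + 1) ^ 4) && Nat.blt (P ^ 4) ((R + 1) * 10 ^ e)

/-- The `D` low digits of `M` read the same in both directions. -/
def palChk (D M : ℕ) : Bool :=
  (List.range D).all fun i => Nat.beq (M / 10 ^ (D - 1 - i) % 10) (M / 10 ^ i % 10)

/-- Depth first search. The value `true` means: the branch below `(j, P, T, R)` closes before
depth `j + f` and contains no solution. -/
def search : ℕ → ℕ → ℕ → ℕ → ℕ → ℕ → Bool
  | 0, _, _, _, _, _ => false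
  | f + 1, s, j, P, T, R =>
    !(Nat.beq P T && palChk (4 * j - 3 + s) (P ^ 4)) &&
    (List.range 10).all fun c =>
      !(chk (3 * j + s) (10 * P + c) (10 * R + (T + c * 10 ^ j) ^ 4 / 10 ^ j % 10)) ||
        search f s (j + 1) (10 * P + c) (T + c * 10 ^ j)
          (10 * R + (T + c * 10 ^ j) ^ 4 / 10 ^ j % 10)

/-- The search from all possible leading digits. -/
def start (f s : ℕ) : Bool :=
  (List.range 10).all fun a =>
    Nat.beq a 0 || !(chk s a (a ^ 4 % 10)) || search f s 1 a a (a ^ 4 % 10)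

theorem start1 : start 10 1 = true := by decide +kernel
theorem start2 : start 95 2 = true := by decide +kernel
theorem start3 : start 10 3 = true := by decide +kernel

lemma div_step (n k : ℕ) : 10 * (n / 10 ^ (k + 1)) + n / 10 ^ k % 10 = n / 10 ^ k := by
  have h : n / 10 ^ (k + 1) = n / 10 ^ k / 10 := by
    rw [pow_succ, Nat.div_div_eq_div_mul]
  rw [h]
  omega

lemma mod_step (n j : ℕ) : n % 10 ^ j + (n / 10 ^ j % 10) * 10 ^ j = n % 10 ^ (j + 1) := by
  rw [pow_succ, Nat.mod_mul]
  ring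

lemma pow_mod_div (n j : ℕ) :
    (n % 10 ^ (j + 1)) ^ 4 / 10 ^ j % 10 = n ^ 4 / 10 ^ j % 10 := by
  have h1 : ∀ x : ℕ, x / 10 ^ j % 10 = x % 10 ^ (j + 1) / 10 ^ j := by
    intro x
    rw [pow_succ, Nat.mod_mul_right_div_self]
  rw [h1, h1 (n ^ 4), ← Nat.pow_mod]

lemma chk_of {n P R q e : ℕ} (hP : P = n / 10 ^ q) (hR : R = n ^ 4 / 10 ^ (4 * q + e)) :
    chk e P R = true := by
  have hq : 0 < 10 ^ q := by positivity
  have hq4 : 0 < 10 ^ (4 * q) := by positivity
  have hn1 : P * 10 ^ q ≤ n := by rw [hP]; exact Nat.div_mul_le_self n _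
  have hn2 : n < (P + 1) * 10 ^ q := by
    rw [hP]; exact (Nat.div_lt_iff_lt_mul hq).mp (Nat.lt_succ_self _)
  have hM1 : R * 10 ^ (4 * q + e) ≤ n ^ 4 := by rw [hR]; exact Nat.div_mul_le_self _ _
  have hM2 : n ^ 4 < (R + 1) * 10 ^ (4 * q + e) := by
    rw [hR]; exact (Nat.div_lt_iff_lt_mul (by positivity)).mp (Nat.lt_succ_self _)
  have e1 : ∀ x : ℕ, (x * 10 ^ q) ^ 4 = x ^ 4 * 10 ^ (4 * q) := by
    intro x; rw [mul_pow, ← pow_mul, mul_comm q 4]
  have e2 : ∀ x : ℕ, x * 10 ^ (4 * q + e) = (x * 10 ^ e) * 10 ^ (4 * q) := by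
    intro x; rw [pow_add]; ring
  unfold chk
  rw [Bool.and_eq_true]
  constructor
  · have : (R * 10 ^ e) * 10 ^ (4 * q) < (P + 1) ^ 4 * 10 ^ (4 * q) := by
      rw [← e2, ← e1]
      exact lt_of_le_of_lt hM1 (Nat.pow_lt_pow_left hn2 (by norm_num))
    have h := Nat.lt_of_mul_lt_mul_right this
    simpa [Nat.blt_eq] using h
  · have : P ^ 4 * 10 ^ (4 * q) < ((R + 1) * 10 ^ e) * 10 ^ (4 * q) := by
      rw [← e2, ← e1]
      exact lt_of_le_of_lt (Nat.pow_le_pow_left hn1 4) hM2
    have h := Nat.lt_of_mul_lt_mul_right this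
    simpa [Nat.blt_eq] using h

lemma search_false {n d D s : ℕ} (hd' : n < 10 ^ d) (hD : D + 3 = 4 * d + s)
    (pn : ∀ i < d, n / 10 ^ (d - 1 - i) % 10 = n / 10 ^ i % 10)
    (pM : ∀ i < D, n ^ 4 / 10 ^ (D - 1 - i) % 10 = n ^ 4 / 10 ^ i % 10) :
    ∀ f j, 1 ≤ j → j ≤ d →
      search f s j (n / 10 ^ (d - j)) (n % 10 ^ j) (n ^ 4 / 10 ^ (D - j)) = false := by
  intro f
  induction f with
  | zero => intro j _ _; rfl
  | succ f ih =>
    intro j hj1 hjd
    rcases Nat.eq_or_lt_of_le hjd with hjd | hjd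
    · subst hjd
      have h1 : n / 10 ^ (j - j) = n := by simp
      have h2 : n % 10 ^ j = n := Nat.mod_eq_of_lt hd'
      rw [h1, h2]
      unfold search
      have hDe : 4 * j - 3 + s = D := by omega
      have h3 : palChk (4 * j - 3 + s) (n ^ 4) = true := by
        rw [hDe]
        unfold palChk
        rw [List.all_eq_true]
        intro i hi
        rw [List.mem_range] at hi
        rw [pM i hi]
        simp
      rw [h3]
      simp
    · have hc10 : n / 10 ^ j % 10 < 10 := Nat.mod_lt _ (by norm_num)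
      have e1 : 10 * (n / 10 ^ (d - j)) + n / 10 ^ j % 10 = n / 10 ^ (d - (j + 1)) := by
        have := div_step n (d - (j + 1))
        rw [show d - (j + 1) + 1 = d - j by omega] at this
        rw [← this, ← pn j hjd, show d - 1 - j = d - (j + 1) by omega]
      have e2 : n % 10 ^ j + (n / 10 ^ j % 10) * 10 ^ j = n % 10 ^ (j + 1) := mod_step n j
      have hjD : j < D := by omega
      have e3 : 10 * (n ^ 4 / 10 ^ (D - j)) +
          (n % 10 ^ j + (n / 10 ^ j % 10) * 10 ^ j) ^ 4 / 10 ^ j % 10 =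
            n ^ 4 / 10 ^ (D - (j + 1)) := by
        rw [e2, pow_mod_div]
        have := div_step (n ^ 4) (D - (j + 1))
        rw [show D - (j + 1) + 1 = D - j by omega] at this
        rw [← this, ← pM j hjD, show D - 1 - j = D - (j + 1) by omega]
      have hchk : chk (3 * j + s) (n / 10 ^ (d - (j + 1))) (n ^ 4 / 10 ^ (D - (j + 1))) = true := by
        apply chk_of (q := d - (j + 1)) rfl
        congr 2
        omega
      have hs := ih (j + 1) (by omega) (by omega)
      unfold search
      rw [Bool.and_eq_false_iff]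
      right
      rw [List.all_eq_false]
      refine ⟨n / 10 ^ j % 10, List.mem_range.mpr hc10, ?_⟩
      rw [e3, e1, e2, hchk, hs]
      simp

lemma start_false {n d D s : ℕ} (hd : 10 ^ (d - 1) ≤ n) (hd' : n < 10 ^ d) (hd1 : 1 ≤ d)
    (hD : D + 3 = 4 * d + s)
    (pn : ∀ i < d, n / 10 ^ (d - 1 - i) % 10 = n / 10 ^ i % 10)
    (pM : ∀ i < D, n ^ 4 / 10 ^ (D - 1 - i) % 10 = n ^ 4 / 10 ^ i % 10)
    (hM : n ^ 4 < 10 ^ D) (f : ℕ) :
    start f s = false := by
  have hlead : n / 10 ^ (d - 1) < 10 := by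
    rw [Nat.div_lt_iff_lt_mul (by positivity)]
    calc n < 10 ^ d := hd'
      _ = 10 * 10 ^ (d - 1) := by rw [← pow_succ']; congr 1; omega
  have hlead1 : 1 ≤ n / 10 ^ (d - 1) := by
    rw [Nat.le_div_iff_mul_le (by positivity)]; simpa using hd
  have hmod : n % 10 ^ 1 = n / 10 ^ (d - 1) := by
    have h := pn 0 (by omega)
    simp only [Nat.sub_zero, pow_zero, Nat.div_one] at h
    rw [pow_one, ← h, Nat.mod_eq_of_lt hlead]
  have hMlead : n ^ 4 / 10 ^ (D - 1) < 10 := by
    rw [Nat.div_lt_iff_lt_mul (by positivity)]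
    calc n ^ 4 < 10 ^ D := hM
      _ = 10 * 10 ^ (D - 1) := by rw [← pow_succ']; congr 1; omega
  have hMmod : n ^ 4 / 10 ^ (D - 1) = (n / 10 ^ (d - 1)) ^ 4 % 10 := by
    have h := pM 0 (by omega)
    simp only [Nat.sub_zero, pow_zero, Nat.div_one] at h
    rw [Nat.mod_eq_of_lt hMlead] at h
    rw [h, Nat.pow_mod, show n % 10 = n / 10 ^ (d - 1) by rw [← hmod, pow_one]]
  have hs := search_false hd' hD pn pM f 1 le_rfl hd1
  have hchk : chk s (n / 10 ^ (d - 1)) (n ^ 4 / 10 ^ (D - 1)) = true := by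
    apply chk_of (q := d - 1) rfl
    congr 2
    omega
  unfold start
  rw [List.all_eq_false]
  refine ⟨n / 10 ^ (d - 1), List.mem_range.mpr hlead, ?_⟩
  rw [← hMmod]
  rw [hmod] at hs
  rw [hs, hchk]
  have : Nat.beq (n / 10 ^ (d - 1)) 0 = false := by
    rw [Bool.eq_false_iff]
    intro h
    have := Nat.eq_of_beq_eq_true h
    omega
  rw [this]
  simp

/-! ### The case without extra digits -/

/-- The digit polynomial of `m` truncated to `d` digits. -/
noncomputable def dig (d m : ℕ) : ℕ[X] :=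
  ∑ i ∈ Finset.range d, monomial i (m / 10 ^ i % 10)

lemma coeff_dig (d m i : ℕ) : (dig d m).coeff i = if i < d then m / 10 ^ i % 10 else 0 := by
  unfold dig
  rw [finsetSum_coeff]
  simp only [coeff_monomial]
  rw [Finset.sum_ite_eq']
  simp

lemma sum_digits (m : ℕ) : ∀ k, ∑ i ∈ Finset.range k, (m / 10 ^ i % 10) * 10 ^ i = m % 10 ^ k := by
  intro k
  induction k with
  | zero => simp [Nat.mod_one]
  | succ k ih => rw [Finset.sum_range_succ, ih, mod_step]

lemma eval_dig {d m : ℕ} (h : m < 10 ^ d) : (dig d m).eval 10 = m := by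
  unfold dig
  rw [eval_finsetSum]
  simp only [eval_monomial]
  rw [sum_digits, Nat.mod_eq_of_lt h]

lemma natDegree_dig (d m : ℕ) : (dig d m).natDegree ≤ d - 1 := by
  rw [natDegree_le_iff_coeff_eq_zero]
  intro N hN
  rw [coeff_dig, if_neg (by omega)]

lemma reflect_dig {d m : ℕ} (pn : ∀ i < d, m / 10 ^ (d - 1 - i) % 10 = m / 10 ^ i % 10) :
    reflect (d - 1) (dig d m) = dig d m := by
  ext i
  rw [coeff_reflect]
  by_cases hi : i ≤ d - 1
  · rw [revAt_le hi, coeff_dig, coeff_dig]
    by_cases hd : d = 0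
    · subst hd; simp
    · rw [if_pos (by omega), if_pos (by omega), pn i (by omega)]
  · rw [revAt_eq_self_of_lt (by omega)]

lemma no_carry {K M : ℕ} {C : ℕ[X]} (hdeg : C.natDegree ≤ K) (hrefl : reflect K C = C)
    (heval : C.eval 10 = M)
    (hM : M < 10 ^ (K + 1))
    (pM : ∀ i < K + 1, M / 10 ^ (K + 1 - 1 - i) % 10 = M / 10 ^ i % 10) :
    ∀ j ≤ K, C.coeff j = M / 10 ^ j % 10 := by
  by_contra hcon
  push Not at hcon
  classical
  obtain ⟨hjK, hjne⟩ := Nat.find_spec hcon
  have hmin := fun i (hi : i < Nat.find hcon) => Nat.find_min hcon hi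
  set j := Nat.find hcon with hj
  have hlow : ∀ i < j, C.coeff i = M / 10 ^ i % 10 := by
    intro i hi
    have := hmin i hi
    push Not at this
    exact this (by omega)
  have hsym : ∀ i ≤ K, C.coeff (K - i) = C.coeff i := by
    intro i hi
    conv_rhs => rw [← hrefl]
    rw [coeff_reflect, revAt_le hi]
  have hpM : ∀ i ≤ K, M / 10 ^ (K - i) % 10 = M / 10 ^ i % 10 := by
    intro i hi
    have := pM i (by omega)
    rwa [Nat.add_sub_cancel] at this
  have hsum : ∑ i ∈ Finset.range (K + 1), C.coeff i * 10 ^ i = M := by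
    rw [← heval, eval_eq_sum_range' (n := K + 1) (by omega)]
  -- comparison of low digits
  have hmod : C.coeff j % 10 = M / 10 ^ j % 10 := by
    have h1 : (∑ i ∈ Finset.range (j + 1), C.coeff i * 10 ^ i) % 10 ^ (j + 1) =
        M % 10 ^ (j + 1) := by
      rw [← hsum, ← Finset.sum_range_add_sum_Ico _ (show j + 1 ≤ K + 1 by omega)]
      have hdvd : 10 ^ (j + 1) ∣ ∑ k ∈ Finset.Ico (j + 1) (K + 1), C.coeff k * 10 ^ k := by
        apply Finset.dvd_sum
        intro k hk
        rw [Finset.mem_Ico] at hk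
        exact Dvd.dvd.mul_left (pow_dvd_pow 10 hk.1) _
      obtain ⟨q, hq⟩ := hdvd
      rw [hq, Nat.add_mul_mod_self_left]
    rw [Finset.sum_range_succ, Finset.sum_congr rfl
      (fun i hi => by rw [hlow i (Finset.mem_range.mp hi)]), sum_digits, ← mod_step M j] at h1
    have h2 : C.coeff j * 10 ^ j ≡ M / 10 ^ j % 10 * 10 ^ j [MOD 10 ^ (j + 1)] := by
      apply Nat.ModEq.add_left_cancel' (M % 10 ^ j)
      unfold Nat.ModEq
      rw [h1, mod_step, Nat.mod_mod]
    have h3 : C.coeff j ≡ M / 10 ^ j % 10 [MOD 10] := by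
      rw [pow_succ, mul_comm (10 ^ j) 10] at h2
      exact Nat.ModEq.mul_right_cancel' (by positivity) h2
    have h4 : C.coeff j % 10 = (M / 10 ^ j % 10) % 10 := h3
    rwa [Nat.mod_mod] at h4
  have hbig : M / 10 ^ j % 10 + 10 ≤ C.coeff j := by omega
  -- comparison of high digits
  have hsplit : ∑ i ∈ Finset.range (K - j), (M / 10 ^ i % 10) * 10 ^ i +
      ∑ i ∈ Finset.Ico (K - j) (K + 1), (M / 10 ^ i % 10) * 10 ^ i = M := by
    rw [Finset.sum_range_add_sum_Ico _ (by omega), sum_digits, Nat.mod_eq_of_lt hM]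
  have hlt : ∑ i ∈ Finset.range (K - j), (M / 10 ^ i % 10) * 10 ^ i < 10 ^ (K - j) := by
    rw [sum_digits]; exact Nat.mod_lt _ (by positivity)
  have hle : ∑ i ∈ Finset.Ico (K - j) (K + 1), C.coeff i * 10 ^ i ≤ M := by
    rw [← hsum, ← Finset.sum_range_add_sum_Ico _ (show K - j ≤ K + 1 by omega)]
    exact Nat.le_add_left _ _
  have hge : ∑ i ∈ Finset.Ico (K - j) (K + 1), (M / 10 ^ i % 10) * 10 ^ i + 10 * 10 ^ (K - j) ≤
      ∑ i ∈ Finset.Ico (K - j) (K + 1), C.coeff i * 10 ^ i := by
    rw [Finset.sum_eq_sum_Ico_succ_bot (show K - j < K + 1 by omega)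
        (fun i => (M / 10 ^ i % 10) * 10 ^ i),
      Finset.sum_eq_sum_Ico_succ_bot (show K - j < K + 1 by omega)
        (fun i => C.coeff i * 10 ^ i)]
    have ht : ∑ i ∈ Finset.Ico (K - j + 1) (K + 1), (M / 10 ^ i % 10) * 10 ^ i =
        ∑ i ∈ Finset.Ico (K - j + 1) (K + 1), C.coeff i * 10 ^ i := by
      apply Finset.sum_congr rfl
      intro i hi
      rw [Finset.mem_Ico] at hi
      have h1 := hlow (K - i) (by omega)
      rw [hsym i (by omega), hpM i (by omega)] at h1
      rw [h1]
    rw [ht]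
    have h0 : (M / 10 ^ (K - j) % 10 + 10) * 10 ^ (K - j) ≤ C.coeff (K - j) * 10 ^ (K - j) := by
      apply Nat.mul_le_mul_right
      rw [hsym j hjK, hpM j hjK]
      exact hbig
    have h0' : (M / 10 ^ (K - j) % 10 + 10) * 10 ^ (K - j) =
      M / 10 ^ (K - j) % 10 * 10 ^ (K - j) + 10 * 10 ^ (K - j) := by ring
    omega
  omega

lemma case_zero {n d : ℕ} (hn : 1 < n) (hd : 10 ^ (d - 1) ≤ n) (hd' : n < 10 ^ d) (hd1 : 1 ≤ d)
    (pn : ∀ i < d, n / 10 ^ (d - 1 - i) % 10 = n / 10 ^ i % 10)
    (hM : n ^ 4 < 10 ^ (4 * (d - 1) + 1))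
    (pM : ∀ i < 4 * (d - 1) + 1,
      n ^ 4 / 10 ^ (4 * (d - 1) + 1 - 1 - i) % 10 = n ^ 4 / 10 ^ i % 10) :
    ∃ i : ℕ, n = 10 ^ (i + 1) + 1 := by
  obtain ⟨m, rfl⟩ : ∃ m, d = m + 1 := ⟨d - 1, by omega⟩
  simp only [Nat.add_sub_cancel] at *
  set A := dig (m + 1) n with hA
  have hAdeg : A.natDegree ≤ m := by simpa using natDegree_dig (m + 1) n
  have hArefl : reflect m A = A := by
    have := reflect_dig (d := m + 1) (m := n) (by simpa using pn)
    simpa using this
  have hAeval : A.eval 10 = n := eval_dig hd'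
  have hA2deg : (A * A).natDegree ≤ m + m := le_trans natDegree_mul_le (by omega)
  have hA2refl : reflect (m + m) (A * A) = A * A := by
    rw [reflect_mul A A hAdeg hAdeg, hArefl]
  have hA4deg : ((A * A) * (A * A)).natDegree ≤ (m + m) + (m + m) :=
    le_trans natDegree_mul_le (by omega)
  have hA4refl : reflect ((m + m) + (m + m)) ((A * A) * (A * A)) = (A * A) * (A * A) := by
    rw [reflect_mul _ _ hA2deg hA2deg, hA2refl]
  have hK : (m + m) + (m + m) = 4 * m := by ring
  rw [hK] at hA4deg hA4refl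
  have hA4eval : ((A * A) * (A * A)).eval 10 = n ^ 4 := by
    simp only [eval_mul, hAeval]; ring
  have hnc := no_carry hA4deg hA4refl hA4eval hM (by simpa using pM)
  have hmid : ((A * A) * (A * A)).coeff (2 * m) < 10 := by
    rw [hnc (2 * m) (by omega)]
    exact Nat.mod_lt _ (by norm_num)
  -- m ≥ 1
  have hm : 1 ≤ m := by
    by_contra h0
    have : m = 0 := by omega
    subst this
    simp at hM
    have : 2 ^ 4 ≤ n ^ 4 := Nat.pow_le_pow_left hn 4
    omega
  have ha0 : A.coeff 0 = A.coeff m := by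
    conv_lhs => rw [← hArefl]
    rw [coeff_reflect, revAt_le (by omega), Nat.sub_zero]
  have ham : 1 ≤ A.coeff m := by
    rw [hA, coeff_dig, if_pos (by omega)]
    have h1 : n / 10 ^ m < 10 := by
      rw [Nat.div_lt_iff_lt_mul (by positivity), ← pow_succ']; exact hd'
    rw [Nat.mod_eq_of_lt h1, Nat.le_div_iff_mul_le (by positivity)]
    simpa using hd
  have hsymA : ∀ i ≤ m, A.coeff (m - i) = A.coeff i := by
    intro i hi
    conv_rhs => rw [← hArefl]
    rw [coeff_reflect, revAt_le hi]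
  -- coefficient of the square
  have hg : (A * A).coeff m = ∑ i ∈ Finset.range (m + 1), A.coeff i * A.coeff i := by
    rw [coeff_mul, Finset.Nat.sum_antidiagonal_eq_sum_range_succ_mk]
    apply Finset.sum_congr rfl
    intro i hi
    rw [Finset.mem_range] at hi
    simp only
    rw [hsymA i (by omega)]
  have hg0 : (A * A).coeff 0 = A.coeff 0 * A.coeff 0 := by simp [coeff_mul]
  have hg2 : (A * A).coeff (2 * m) = A.coeff 0 * A.coeff 0 := by
    have h1 : (reflect (m + m) (A * A)).coeff 0 = (A * A).coeff 0 := by rw [hA2refl]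
    rw [coeff_reflect, revAt_le (by omega), Nat.sub_zero, hg0] at h1
    rw [two_mul]; exact h1
  have h4 : (A * A).coeff m * (A * A).coeff m +
      ((A * A).coeff 0 * (A * A).coeff (2 * m) + (A * A).coeff (2 * m) * (A * A).coeff 0) ≤
      ((A * A) * (A * A)).coeff (2 * m) := by
    rw [coeff_mul (A * A) (A * A) (2 * m)]
    have hsub : ({(m, m), (0, 2 * m), (2 * m, 0)} : Finset (ℕ × ℕ)) ⊆
        Finset.HasAntidiagonal.antidiagonal (2 * m) := by
      intro x hx
      simp only [Finset.mem_insert, Finset.mem_singleton] at hx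
      rw [Finset.HasAntidiagonal.mem_antidiagonal]
      rcases hx with rfl | rfl | rfl <;> simp <;> ring
    refine le_trans (le_of_eq ?_) (Finset.sum_le_sum_of_subset hsub)
    rw [Finset.sum_insert, Finset.sum_insert, Finset.sum_singleton]
    · simp; omega
    · simp; omega
  have hg3 : (A * A).coeff m ≤ 2 := by
    by_contra h
    push Not at h
    have h5 : 3 * 3 ≤ (A * A).coeff m * (A * A).coeff m := Nat.mul_le_mul h h
    have h6 : 1 * 1 ≤ (A * A).coeff 0 * (A * A).coeff (2 * m) := by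
      apply Nat.mul_le_mul
      · rw [hg0]; rw [ha0]; exact Nat.mul_le_mul ham ham
      · rw [hg2]; rw [ha0]; exact Nat.mul_le_mul ham ham
    have h7 : 1 * 1 ≤ (A * A).coeff (2 * m) * (A * A).coeff 0 := by
      rw [mul_comm ((A * A).coeff (2 * m))]; exact h6
    omega
  -- lower bound for the middle coefficient of the square
  have hsum3 : ∀ i, 0 < i → i < m → A.coeff i = 0 := by
    intro i hi0 him
    by_contra hne
    have hpos : 1 ≤ A.coeff i := Nat.one_le_iff_ne_zero.mpr hne
    have hsub : ({0, m, i} : Finset ℕ) ⊆ Finset.range (m + 1) := by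
      intro x hx
      simp only [Finset.mem_insert, Finset.mem_singleton] at hx
      rw [Finset.mem_range]
      rcases hx with rfl | rfl | rfl <;> omega
    have h8 := Finset.sum_le_sum_of_subset (f := fun i => A.coeff i * A.coeff i) hsub
    rw [Finset.sum_insert (by simp; omega), Finset.sum_insert (by simp; omega),
      Finset.sum_singleton, ← hg] at h8
    have h9 : 1 * 1 ≤ A.coeff 0 * A.coeff 0 := by rw [ha0]; exact Nat.mul_le_mul ham ham
    have h10 : 1 * 1 ≤ A.coeff m * A.coeff m := Nat.mul_le_mul ham ham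
    have h11 : 1 * 1 ≤ A.coeff i * A.coeff i := Nat.mul_le_mul hpos hpos
    omega
  have ham1 : A.coeff m = 1 := by
    by_contra hne
    have h2 : 2 ≤ A.coeff m := by omega
    have hsub : ({0, m} : Finset ℕ) ⊆ Finset.range (m + 1) := by
      intro x hx
      simp only [Finset.mem_insert, Finset.mem_singleton] at hx
      rw [Finset.mem_range]
      rcases hx with rfl | rfl <;> omega
    have h8 := Finset.sum_le_sum_of_subset (f := fun i => A.coeff i * A.coeff i) hsub
    rw [Finset.sum_insert (by simp; omega), Finset.sum_singleton, ← hg] at h8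
    have h10 : 2 * 2 ≤ A.coeff m * A.coeff m := Nat.mul_le_mul h2 h2
    omega
  refine ⟨m - 1, ?_⟩
  rw [show m - 1 + 1 = m by omega, ← hAeval, eval_eq_sum_range' (n := m + 1) (by omega),
    Finset.sum_range_succ, ham1]
  have h12 : ∑ i ∈ Finset.range m, A.coeff i * 10 ^ i = 1 := by
    rw [Finset.sum_eq_single 0]
    · rw [ha0, ham1]; norm_num
    · intro b hb hb0
      rw [hsum3 b (by omega) (Finset.mem_range.mp hb), zero_mul]
    · intro h; exact absurd (Finset.mem_range.mpr (by omega)) h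
  rw [h12]; ring


/-! ### The theorem -/

/-- If `n > 1` and both `n` and `n ^ 4` are palindromes in base ten, then `n` is one of the
numbers `10 ^ (i + 1) + 1`. -/
theorem result (n : ℕ) (hn : 1 < n) (hpal : (Nat.digits 10 n).Palindrome)
    (hpal4 : (Nat.digits 10 (n ^ 4)).Palindrome) :
    ∃ i : ℕ, n = 10 ^ (i + 1) + 1 := by
  have pn := pal_digit hpal
  have pM := pal_digit hpal4
  set d := (Nat.digits 10 n).length with hd
  set D := (Nat.digits 10 (n ^ 4)).length with hD
  have hnu : n < 10 ^ d := Nat.lt_base_pow_length_digits (by norm_num)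
  have hMu : n ^ 4 < 10 ^ D := Nat.lt_base_pow_length_digits (by norm_num)
  have hnl' : 10 ^ d ≤ 10 * n := Nat.base_pow_length_digits_le 10 n (by norm_num) (by omega)
  have hMl' : 10 ^ D ≤ 10 * n ^ 4 :=
    Nat.base_pow_length_digits_le 10 (n ^ 4) (by norm_num) (by positivity)
  have hd1 : 1 ≤ d := by
    by_contra h
    have : d = 0 := by omega
    rw [this] at hnu
    simp at hnu
    omega
  have hnl : 10 ^ (d - 1) ≤ n := by
    have : 10 * 10 ^ (d - 1) ≤ 10 * n := by
      rw [← pow_succ', show d - 1 + 1 = d by omega]; exact hnl'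
    omega
  have hD1 : 1 ≤ D := by
    by_contra h
    have : D = 0 := by omega
    rw [this] at hMu
    have : 0 < n ^ 4 := by positivity
    omega
  have hMl : 10 ^ (D - 1) ≤ n ^ 4 := by
    have : 10 * 10 ^ (D - 1) ≤ 10 * n ^ 4 := by
      rw [← pow_succ', show D - 1 + 1 = D by omega]; exact hMl'
    omega
  have hub : D - 1 < 4 * d := by
    have h1 : n ^ 4 < 10 ^ (4 * d) := by
      rw [mul_comm, pow_mul]; exact Nat.pow_lt_pow_left hnu (by norm_num)
    exact (Nat.pow_lt_pow_iff_right (by norm_num : 1 < 10)).mp (lt_of_le_of_lt hMl h1)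
  have hlb : 4 * (d - 1) < D := by
    have h1 : 10 ^ (4 * (d - 1)) ≤ n ^ 4 := by
      rw [mul_comm, pow_mul]; exact Nat.pow_le_pow_left hnl 4
    exact (Nat.pow_lt_pow_iff_right (by norm_num : 1 < 10)).mp (lt_of_le_of_lt h1 hMu)
  obtain ⟨s, hs, hs4⟩ : ∃ s, D + 3 = 4 * d + s ∧ s < 4 := ⟨D + 3 - 4 * d, by omega, by omega⟩
  rcases Nat.eq_zero_or_pos s with h0 | hspos
  · have hDe : D = 4 * (d - 1) + 1 := by omega
    rw [hDe] at pM hMu
    exact case_zero hn hnl hnu hd1 pn hMu pM
  · exfalso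
    have key := fun f => start_false hnl hnu hd1 hs pn pM hMu f
    have hcases : s = 1 ∨ s = 2 ∨ s = 3 := by omega
    rcases hcases with rfl | rfl | rfl
    · have := key 10; rw [start1] at this; exact Bool.noConfusion this
    · have := key 95; rw [start2] at this; exact Bool.noConfusion this
    · have := key 10; rw [start3] at this; exact Bool.noConfusion this

end Pool.Agent.Results.MP_4eb327_nt.PalindromicRoot
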